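import Pool.Agent.R944.FF.Stm

/-! MP_e8f67b_lc, FF-D0: the assignment of First Fit satisfies its two rules. -/

namespace Pool.Agent.R944.FF.D0

open Pool.Agent.R944.FF

/-- the set of the possible bins for item `i` -/
def SB {d : ℕ} (x : ℕ → Fin d → ℝ) (i : ℕ) : Set ℕ :=
  {j : ℕ | ∀ c, (∑ k ∈ Finset.range i, if ffBin x k = j then x k c else 0) + x i c ≤ 1}

theorem ffBin_eq {d : ℕ} (x : ℕ → Fin d → ℝ) (i : ℕ) : ffBin x i = sInf (SB x i) := by
  rw [ffBin]
  congr 1
  ext j
  simp only [SB, Set.mem_ofPred_eq, Finset.sum_range]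

theorem ne {d : ℕ} {x : ℕ → Fin d → ℝ} (hx : InCube x) (i : ℕ) : (SB x i).Nonempty := by
  obtain ⟨j, hj⟩ := Infinite.exists_notMem_finset ((Finset.range i).image (ffBin x))
  refine ⟨j, fun c => ?_⟩
  rw [Finset.sum_eq_zero, zero_add]
  · exact (hx i c).2
  · intro k hk
    rw [if_neg]
    intro h
    exact hj (Finset.mem_image.2 ⟨k, hk, h⟩)

theorem main : S_D0 := by
  intro d x hx
  constructor
  · intro i c
    have h := Nat.sInf_mem (ne hx i)
    rw [← ffBin_eq] at h
    exact h c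
  · intro i j hj
    rw [ffBin_eq] at hj
    have h := Nat.notMem_of_lt_sInf hj
    simp only [SB, Set.mem_ofPred_eq, not_forall, not_le] at h
    exact h

end Pool.Agent.R944.FF.D0
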