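import Pool.Agent.R944.FF.Stm
/-!
(D1) the window inequality for First Fit (MP_e8f67b_lc).
-/
open scoped BigOperators
namespace Pool.Agent.R944.FF.D1

open Pool.Agent.R944.FF

/-- item `i` opens its bin -/
def Opn (b : ℕ → ℕ) (i : ℕ) : Prop := ∀ i' < i, b i' ≠ b i

open Classical in
theorem cnt_eq (b : ℕ → ℕ) (n : ℕ) : cnt b n = ((Finset.range n).filter (Opn b)).card := by
  unfold cnt
  have h1 : (Finset.range n).image b = ((Finset.range n).filter (Opn b)).image b := by
    ext m
    simp only [Finset.mem_image, Finset.mem_range, Finset.mem_filter]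
    constructor
    · rintro ⟨i, hi, him⟩
      have hex : ∃ j, b j = m := ⟨i, him⟩
      refine ⟨Nat.find hex, ⟨lt_of_le_of_lt (Nat.find_min' hex him) hi, ?_⟩, Nat.find_spec hex⟩
      intro i' hi'
      rw [Nat.find_spec hex]
      exact Nat.find_min hex hi'
    · rintro ⟨i, ⟨hi, -⟩, him⟩
      exact ⟨i, hi, him⟩
  rw [h1, Finset.card_image_of_injOn]
  intro i hi j hj hij
  simp only [Finset.coe_filter, Finset.mem_range, Set.mem_setOf_eq] at hi hj
  rcases lt_trichotomy i j with h | h | h
  · exact absurd hij (hj.2 i h)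
  · exact h
  · exact absurd hij.symm (hi.2 j h)

theorem opn_inj {b : ℕ → ℕ} {i j : ℕ} (hi : Opn b i) (hj : Opn b j) (h : b i = b j) : i = j := by
  rcases lt_trichotomy i j with h' | h' | h'
  · exact absurd h (hj i h')
  · exact h'
  · exact absurd h.symm (hi j h')

open Classical in
theorem main : S_D1 := by
  intro d x hx b hb ι _ inst τ G c hc hfit t w v hwt hv
  obtain ⟨s, hs⟩ : ∃ s, s = t - w := ⟨_, rfl⟩
  rw [← hs]
  have hst : s ≤ t := by omega
  have hts : t - s = w := by omega
  -- openers in the window
  set O := (Finset.Ico s t).filter (Opn b) with hO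
  have hcnt : cnt b t = cnt b s + O.card := by
    rw [cnt_eq, cnt_eq, hO, ← Finset.card_union_of_disjoint]
    · congr 1
      ext i
      simp only [Finset.mem_filter, Finset.mem_union, Finset.mem_range, Finset.mem_Ico]
      constructor
      · rintro ⟨h1, h2⟩
        by_cases h : i < s
        · exact Or.inl ⟨h, h2⟩
        · exact Or.inr ⟨⟨by omega, h1⟩, h2⟩
      · rintro (⟨h1, h2⟩ | ⟨h1, h2⟩)
        · exact ⟨by omega, h2⟩
        · exact ⟨h1.2, h2⟩
    · rw [Finset.disjoint_left]
      intro i h1 h2
      simp only [Finset.mem_filter, Finset.mem_range, Finset.mem_Ico] at h1 h2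
      omega
  set Q := O.filter (fun i => ∀ j ∈ Finset.range t, j ≠ i → b j ≠ b i) with hQ
  set S := O.filter (fun i => ¬ ∀ j ∈ Finset.range t, j ≠ i → b j ≠ b i) with hS
  have hOQS : Q.card + S.card = O.card := Finset.card_filter_add_card_filter_not _
  -- bound for `Q`
  have hQb : Q.card ≤ ∑ k ∈ Finset.univ.filter (fun k => w < sgl τ b k t), arr τ k s t
      + Fintype.card ι * v := by
    have e1 : Q.card = ∑ k ∈ (Finset.univ : Finset ι), (Q.filter (fun i => τ i = k)).card :=
      Finset.card_eq_sum_card_fiberwise (fun _ _ => Finset.mem_coe.2 (Finset.mem_univ _))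
    rw [e1, ← Finset.sum_filter_add_sum_filter_not Finset.univ (fun k => w < sgl τ b k t)]
    refine add_le_add (Finset.sum_le_sum (fun k _ => ?_)) ?_
    · unfold arr
      apply Finset.card_le_card
      intro i hi
      simp only [hQ, hO, Finset.mem_filter] at hi ⊢
      exact ⟨hi.1.1.1, hi.2⟩
    · calc _ ≤ ∑ k ∈ Finset.univ.filter (fun k => ¬ w < sgl τ b k t), v := by
            refine Finset.sum_le_sum (fun k hk => ?_)
            have hk' := (Finset.mem_filter.1 hk).2
            refine le_trans ?_ ((hv k).resolve_right hk')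
            unfold sgl
            apply Finset.card_le_card
            intro i hi
            simp only [hQ, hO, Finset.mem_filter, Finset.mem_Ico, Finset.mem_range] at hi ⊢
            exact ⟨hi.1.1.1.2, hi.2, hi.1.2⟩
        _ ≤ Fintype.card ι * v := by
            rw [Finset.sum_const, smul_eq_mul]
            exact Nat.mul_le_mul_right _ (Finset.card_le_univ _)
  -- second items
  have hσ : ∀ i ∈ S, ∃ j, i < j ∧ j < t ∧ b j = b i := by
    intro i hi
    simp only [hS, hO, Finset.mem_filter, Finset.mem_Ico] at hi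
    obtain ⟨⟨⟨h1, h2⟩, h3⟩, h4⟩ := hi
    push Not at h4
    obtain ⟨j, hj, hji, hbj⟩ := h4
    refine ⟨j, ?_, Finset.mem_range.1 hj, hbj⟩
    by_contra hlt
    exact h3 j (by omega) hbj
  choose! σ hσ1 hσ2 hσ3 using hσ
  have hT2 : (S.image σ).card = S.card := by
    apply Finset.card_image_of_injOn
    intro i hi j hj hij
    have hi' := Finset.mem_coe.1 hi
    have hj' := Finset.mem_coe.1 hj
    refine opn_inj (b := b) ?_ ?_ ?_
    · exact (Finset.mem_filter.1 (Finset.mem_filter.1 hi').1).2
    · exact (Finset.mem_filter.1 (Finset.mem_filter.1 hj').1).2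
    · rw [← hσ3 i hi', ← hσ3 j hj', hij]
  -- items that fit on top of a rich type
  set Gr := G.filter (fun k => w < sgl τ b k t) with hGr
  have hkey : ∀ k ∈ Gr, ∀ y ∈ Finset.Ico s t, τ y = c k → ∃ i' < s, b i' = b y := by
    intro k hk y hy hτy
    have hk1 := (Finset.mem_filter.1 hk).1
    have hk2 := (Finset.mem_filter.1 hk).2
    have hy1 := (Finset.mem_Ico.1 hy).1
    have hy2 := (Finset.mem_Ico.1 hy).2
    -- a single item of type `k` before the window
    obtain ⟨z, hz1, hz2, hz3⟩ : ∃ z < s, τ z = k ∧ ∀ j ∈ Finset.range t, j ≠ z → b j ≠ b z := by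
      by_contra hcon
      push Not at hcon
      have : sgl τ b k t ≤ w := by
        unfold sgl
        calc _ ≤ (Finset.Ico s t).card := by
              apply Finset.card_le_card
              intro i hi
              simp only [Finset.mem_filter, Finset.mem_range] at hi
              rw [Finset.mem_Ico]
              refine ⟨?_, hi.1⟩
              by_contra his
              obtain ⟨j, hj1, hj2, hj3⟩ := hcon i (by omega) hi.2.1
              exact hi.2.2 j (Finset.mem_range.1 hj1) hj2 hj3
          _ = w := by rw [Nat.card_Ico]; exact hts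
      omega
    have hyz : b y ≠ b z := hz3 y (Finset.mem_range.2 hy2) (by omega)
    have hle : b y ≤ b z := by
      by_contra hlt
      push Not at hlt
      obtain ⟨a, ha⟩ := hb.least y (b z) hlt
      have hsum : (∑ k ∈ Finset.range y, if b k = b z then x k a else 0) = x z a := by
        rw [Finset.sum_eq_single z]
        · simp
        · intro j hj hjz
          rw [if_neg]
          exact hz3 j (Finset.mem_range.2 (lt_trans (Finset.mem_range.1 hj) hy2)) hjz
        · intro hz
          exact absurd (Finset.mem_range.2 (by omega)) hz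
      rw [hsum] at ha
      have := hfit z y (hz2 ▸ hk1) (by rw [hz2]; exact hτy) a
      linarith
    have hlt : b y < b z := lt_of_le_of_ne hle hyz
    obtain ⟨a, ha⟩ := hb.least z (b y) hlt
    by_contra hcon
    push Not at hcon
    have hsum : (∑ k ∈ Finset.range z, if b k = b y then x k a else 0) = 0 := by
      apply Finset.sum_eq_zero
      intro j hj
      rw [if_neg]
      exact hcon j (lt_trans (Finset.mem_range.1 hj) hz1)
    rw [hsum] at ha
    have := (hx z a).2
    linarith
  -- disjoint subsets of the window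
  have hA : (Gr.biUnion (fun k => (Finset.Ico s t).filter (fun i => τ i = c k))).card
      = ∑ k ∈ Gr, arr τ (c k) s t := by
    rw [Finset.card_biUnion]
    · rfl
    · intro k hk k' hk' hkk'
      simp only [Function.onFun]
      rw [Finset.disjoint_left]
      intro i hi hi'
      apply hkk'
      apply hc (Finset.mem_coe.2 (Finset.mem_filter.1 hk).1)
        (Finset.mem_coe.2 (Finset.mem_filter.1 hk').1)
      rw [← (Finset.mem_filter.1 hi).2, ← (Finset.mem_filter.1 hi').2]
  set A := Gr.biUnion (fun k => (Finset.Ico s t).filter (fun i => τ i = c k)) with hAdef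
  have hAkey : ∀ y ∈ A, y ∈ Finset.Ico s t ∧ ∃ i' < s, b i' = b y := by
    intro y hy
    obtain ⟨k, hk, hy'⟩ := Finset.mem_biUnion.1 hy
    exact ⟨(Finset.mem_filter.1 hy').1, hkey k hk y (Finset.mem_filter.1 hy').1
      (Finset.mem_filter.1 hy').2⟩
  have hd1 : Disjoint O (S.image σ) := by
    rw [Finset.disjoint_left]
    intro y hy1 hy2
    obtain ⟨i, hi, rfl⟩ := Finset.mem_image.1 hy2
    exact (Finset.mem_filter.1 hy1).2 i (hσ1 i hi) (hσ3 i hi).symm
  have hd2 : Disjoint (O ∪ S.image σ) A := by
    rw [Finset.disjoint_left]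
    intro y hy1 hy2
    obtain ⟨hy3, i', hi', hbi'⟩ := hAkey y hy2
    rcases Finset.mem_union.1 hy1 with h | h
    · exact (Finset.mem_filter.1 h).2 i' (lt_of_lt_of_le hi' (Finset.mem_Ico.1 hy3).1) hbi'
    · obtain ⟨i, hi, rfl⟩ := Finset.mem_image.1 h
      have hiO := (Finset.mem_filter.1 hi).1
      have hi1 := (Finset.mem_Ico.1 (Finset.mem_filter.1 hiO).1).1
      exact (Finset.mem_filter.1 hiO).2 i' (lt_of_lt_of_le hi' hi1) (hbi'.trans (hσ3 i hi))
  have hsub : (O ∪ S.image σ) ∪ A ⊆ Finset.Ico s t := by
    intro y hy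
    rcases Finset.mem_union.1 hy with h | h
    · rcases Finset.mem_union.1 h with h | h
      · exact (Finset.mem_filter.1 h).1
      · obtain ⟨i, hi, rfl⟩ := Finset.mem_image.1 h
        have hiO := (Finset.mem_filter.1 hi).1
        have hi1 := (Finset.mem_Ico.1 (Finset.mem_filter.1 hiO).1).1
        exact Finset.mem_Ico.2 ⟨le_trans hi1 (hσ1 i hi).le, hσ2 i hi⟩
    · exact (hAkey y h).1
  have hcard := Finset.card_le_card hsub
  rw [Finset.card_union_of_disjoint hd2, Finset.card_union_of_disjoint hd1, hT2, hA,
    Nat.card_Ico, hts] at hcard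
  omega

end Pool.Agent.R944.FF.D1
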