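import Pool.Agent.R944.FF.Stm

/-! (D2): growth bound from the window inequality and equidistribution of the types. -/

open scoped BigOperators Topology
open Filter

namespace Pool.Agent.R944.FF.D2

lemma arr_add {ι : Type} [DecidableEq ι] (τ : ℕ → ι) (k : ι) (s t : ℕ) (h : s ≤ t) :
    arr τ k 0 s + arr τ k s t = arr τ k 0 t := by
  unfold arr
  rw [← Finset.Ico_union_Ico_eq_Ico (Nat.zero_le s) h, Finset.filter_union,
    Finset.card_union_of_disjoint]
  apply Finset.disjoint_filter_filter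
  exact Finset.Ico_disjoint_Ico_consecutive 0 s t

lemma arr_le {ι : Type} [DecidableEq ι] (τ : ℕ → ι) (k : ι) (t : ℕ) : arr τ k 0 t ≤ t := by
  unfold arr
  refine (Finset.card_filter_le _ _).trans ?_
  simp

lemma err {ι : Type} [DecidableEq ι] (τ : ℕ → ι) (k : ι) (q : ℝ) (hq : 0 ≤ q)
    (h : Tendsto (fun n : ℕ => (arr τ k 0 n : ℝ) / n) atTop (𝓝 q)) (η : ℝ) (hη : 0 < η) :
    ∃ C : ℝ, 0 ≤ C ∧ ∀ n : ℕ, |(arr τ k 0 n : ℝ) - q * n| ≤ η * n + C := by
  rw [Metric.tendsto_atTop] at h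
  obtain ⟨n0, hn0⟩ := h η hη
  refine ⟨(1 + q) * n0, by positivity, fun n => ?_⟩
  rcases Nat.eq_zero_or_pos n with h0 | h0
  · subst h0
    have : arr τ k 0 0 = 0 := Nat.le_zero.mp (arr_le τ k 0)
    rw [this]
    simp only [Nat.cast_zero, mul_zero, sub_zero, abs_zero, zero_add]
    positivity
  have hn : (0 : ℝ) < n := by exact_mod_cast h0
  rcases le_or_gt n0 n with h1 | h1
  · have h2 := hn0 n h1
    rw [Real.dist_eq] at h2
    have h3 : (arr τ k 0 n : ℝ) - q * n = ((arr τ k 0 n : ℝ) / n - q) * n := by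
      field_simp
    rw [h3, abs_mul, abs_of_pos hn]
    have h4 : |(arr τ k 0 n : ℝ) / n - q| * n ≤ η * n :=
      mul_le_mul_of_nonneg_right h2.le hn.le
    have h5 : 0 ≤ (1 + q) * n0 := by positivity
    linarith
  · have h2 : (arr τ k 0 n : ℝ) ≤ n := by exact_mod_cast arr_le τ k n
    have h3 : (n : ℝ) ≤ n0 := by exact_mod_cast h1.le
    have h4 : (0 : ℝ) ≤ arr τ k 0 n := Nat.cast_nonneg _
    have h5 : 0 ≤ η * n := by positivity
    have h6 : q * n ≤ q * n0 := mul_le_mul_of_nonneg_left h3 hq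
    have h7 : 0 ≤ q * n := by positivity
    rw [abs_le]
    constructor <;> nlinarith

lemma scale {ι : Type} [Fintype ι] (L : ℕ) (hL : 2 ≤ L) (t : ℕ) (N : ι → ℕ) :
    ∃ j ≤ Fintype.card ι, ∀ k, N k ≤ t / L ^ (j + 1) ∨ t / L ^ j < N k := by
  by_contra hcon
  push Not at hcon
  have h1 : ∀ j : Fin (Fintype.card ι + 1), ∃ k, t / L ^ (j.1 + 1) < N k ∧ N k ≤ t / L ^ j.1 :=
    fun j => hcon j.1 (Nat.lt_succ_iff.mp j.2)
  choose f hf using h1
  obtain ⟨a, b, hab, hfab⟩ := Fintype.exists_ne_map_eq_of_card_lt f (by simp)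
  have key : ∀ a b : Fin (Fintype.card ι + 1), a < b → f a = f b → False := by
    intro a b hab hfab
    have h1 := (hf a).1
    have h2 := (hf b).2
    rw [hfab] at h1
    have h3 : L ^ (a.1 + 1) ≤ L ^ b.1 := Nat.pow_le_pow_right (by omega) hab
    have h4 : t / L ^ b.1 ≤ t / L ^ (a.1 + 1) := Nat.div_le_div_left h3 (by positivity)
    omega
  rcases lt_or_gt_of_ne hab with h | h
  · exact key a b h hfab
  · exact key b a h hfab.symm

lemma growth (K : ℕ → ℕ) (h0 : K 0 = 0) (h1 : ∀ n, K (n + 1) ≤ K n + 1) (β : ℝ) (hβ : 0 ≤ β)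
    (t0 : ℕ) (h : ∀ t, t0 ≤ t → ∃ w, 1 ≤ w ∧ w ≤ t ∧ (K t : ℝ) ≤ K (t - w) + β * w) (n : ℕ) :
    (K n : ℝ) ≤ β * n + t0 := by
  have hK : ∀ n, K n ≤ n := by
    intro n
    induction n with
    | zero => exact h0.le
    | succ n ih => exact (h1 n).trans (by omega)
  induction n using Nat.strong_induction_on with
  | _ n ih =>
    rcases lt_or_ge n t0 with hn | hn
    · have h2 : (K n : ℝ) ≤ n := by exact_mod_cast hK n
      have h3 : (n : ℝ) ≤ t0 := by exact_mod_cast hn.le
      have h4 : 0 ≤ β * n := by positivity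
      linarith
    · obtain ⟨w, hw1, hw2, hw⟩ := h n hn
      have h2 := ih (n - w) (by omega)
      rw [Nat.cast_sub hw2] at h2
      linarith

theorem main : S_D2 := by
  classical
  intro K hK0 hK1 ι _ _ τ G c N p hpc hp hW hlim ε hε
  set M : ℕ := Fintype.card ι with hM
  set S : ℝ := ∑ k ∈ Gᶜ, p k with hS
  have hS0 : 0 ≤ S := Finset.sum_nonneg fun k _ => hp k
  obtain ⟨L, hL2, hLM⟩ : ∃ L : ℕ, 2 ≤ L ∧ (M : ℝ) / L ≤ ε := by
    obtain ⟨L, hL⟩ := exists_nat_gt ((M : ℝ) / ε)
    refine ⟨L + 2, by omega, ?_⟩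
    rw [div_le_iff₀ (by positivity)]
    rw [div_lt_iff₀ hε] at hL
    push_cast
    nlinarith
  have hL0 : (0 : ℝ) < L := by
    have : 0 < L := by omega
    exact_mod_cast this
  set η' : ℝ := ε / (2 * (M + 1)) with hη'
  have hη'0 : 0 < η' := by positivity
  have hη'M : 2 * (M : ℝ) * η' ≤ ε := by
    rw [hη', mul_div_assoc', div_le_iff₀ (by positivity)]
    nlinarith
  set P : ℝ := (L : ℝ) ^ M with hP
  have hP0 : 0 < P := by positivity
  set η : ℝ := η' / (8 * P) with hη
  have hη0 : 0 < η := by positivity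
  have herr := fun k => err τ k (p k) (hp k) (hlim k) η hη0
  choose C hC0 hC using herr
  set Cm : ℝ := ∑ k, C k with hCm
  have hCm0 : 0 ≤ Cm := Finset.sum_nonneg fun k _ => hC0 k
  have hCk : ∀ k, C k ≤ Cm := fun k =>
    Finset.single_le_sum (f := C) (fun i _ => hC0 i) (Finset.mem_univ k)
  obtain ⟨t0, ht0⟩ := exists_nat_gt (2 * P + 8 * P * Cm / η' + 1)
  refine ⟨t0, fun n => ?_⟩
  refine growth K hK0 hK1 _ (by positivity) t0 ?_ n
  intro t ht
  have htR : 2 * P + 8 * P * Cm / η' + 1 < t := lt_of_lt_of_le ht0 (by exact_mod_cast ht)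
  have hq0 : 0 ≤ 8 * P * Cm / η' := by positivity
  obtain ⟨j, hj, hjw⟩ := scale L hL2 t (fun k => N k t)
  set w : ℕ := t / L ^ j with hw
  set v : ℕ := t / L ^ (j + 1) with hv
  -- size of the window
  have hwt : w ≤ t := Nat.div_le_self _ _
  have hwR : (t : ℝ) / (2 * P) ≤ w := by
    have h1 : t / L ^ M ≤ w := Nat.div_le_div_left (Nat.pow_le_pow_right (by omega) hj)
      (by positivity)
    have h2 : (t : ℝ) / P - 1 < ((t / L ^ M : ℕ) : ℝ) := by
      have h3 : t < (t / L ^ M + 1) * L ^ M := by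
        have := Nat.lt_div_mul_add (a := t) (b := L ^ M) (by positivity)
        rw [add_mul, one_mul]
        exact this
      have h4 : (t : ℝ) < ((t / L ^ M : ℕ) + 1 : ℝ) * P := by
        rw [hP]
        exact_mod_cast h3
      rw [sub_lt_iff_lt_add, div_lt_iff₀ hP0]
      exact h4
    have h5 : ((t / L ^ M : ℕ) : ℝ) ≤ w := by exact_mod_cast h1
    have h6 : (t : ℝ) / (2 * P) ≤ (t : ℝ) / P - 1 := by
      have h7 : (t : ℝ) / P = 2 * ((t : ℝ) / (2 * P)) := by
        field_simp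
      have h8 : 1 ≤ (t : ℝ) / (2 * P) := by
        rw [le_div_iff₀ (by positivity)]
        linarith
      linarith
    linarith
  have hw1R : (1 : ℝ) ≤ w := by
    refine le_trans ?_ hwR
    rw [le_div_iff₀ (by positivity)]
    linarith
  have hw1 : 1 ≤ w := by exact_mod_cast hw1R
  have hw0 : (0 : ℝ) < w := by linarith
  have hvw : (v : ℝ) ≤ w / L := by
    have h1 : v = w / L := by
      rw [hv, hw, Nat.div_div_eq_div_mul, pow_succ]
    rw [h1]
    exact Nat.cast_div_le
  refine ⟨w, hw1, hwt, ?_⟩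
  have hA : ∀ k, |(arr τ k (t - w) t : ℝ) - p k * w| ≤ η' * w := by
    intro k
    have h1 := arr_add τ k (t - w) t (Nat.sub_le _ _)
    have h2 : (arr τ k (t - w) t : ℝ) = arr τ k 0 t - arr τ k 0 (t - w) := by
      rw [← h1]
      push_cast
      ring
    have h3 := hC k t
    have h4 := hC k (t - w)
    rw [Nat.cast_sub hwt] at h4
    have h5 : (arr τ k (t - w) t : ℝ) - p k * w =
        ((arr τ k 0 t : ℝ) - p k * t) - ((arr τ k 0 (t - w) : ℝ) - p k * (t - w)) := by
      rw [h2]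
      ring
    rw [h5]
    refine (abs_sub _ _).trans ?_
    have h6 : η * t ≤ η' * w / 4 := by
      have h7 : η * t = η' * ((t : ℝ) / (2 * P)) / 4 := by
        rw [hη]
        field_simp
        ring
      rw [h7]
      have := mul_le_mul_of_nonneg_left hwR hη'0.le
      linarith
    have h8 : Cm ≤ η' * w / 4 := by
      have h9 : 8 * P * Cm / η' ≤ t := by linarith
      rw [div_le_iff₀ hη'0] at h9
      have h10 : 4 * Cm ≤ η' * ((t : ℝ) / (2 * P)) := by
        rw [mul_div_assoc', le_div_iff₀ (by positivity)]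
        linarith
      have := mul_le_mul_of_nonneg_left hwR hη'0.le
      linarith
    have h11 : 0 ≤ η * w := by positivity
    have h12 := hCk k
    nlinarith
  have hwin := hW t w v hwt hjw
  have hwinR : 2 * (K t : ℝ) + ∑ k ∈ G.filter (fun k => w < N k t), (arr τ (c k) (t - w) t : ℝ)
      ≤ 2 * (K (t - w) : ℝ) + w
        + ∑ k ∈ Finset.univ.filter (fun k => w < N k t), (arr τ k (t - w) t : ℝ)
        + M * v := by
    exact_mod_cast hwin
  rw [Finset.sum_filter, Finset.sum_filter, ← Finset.sum_add_sum_compl G] at hwinR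
  have hG : ∑ k ∈ G, (if w < N k t then (arr τ k (t - w) t : ℝ) else 0) ≤
      ∑ k ∈ G, (if w < N k t then (arr τ (c k) (t - w) t : ℝ) else 0) + G.card * (2 * η' * w) := by
    rw [← nsmul_eq_mul, ← Finset.sum_const, ← Finset.sum_add_distrib]
    apply Finset.sum_le_sum
    intro k hk
    have h1 := (abs_le.mp (hA k)).2
    have h2 := (abs_le.mp (hA (c k))).1
    rw [hpc k hk] at h2
    have h3 : 0 ≤ 2 * η' * w := by positivity
    split_ifs <;> linarith
  have hGc : ∑ k ∈ Gᶜ, (if w < N k t then (arr τ k (t - w) t : ℝ) else 0) ≤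
      S * w + (Gᶜ).card * (2 * η' * w) := by
    rw [hS, Finset.sum_mul, ← nsmul_eq_mul, ← Finset.sum_const, ← Finset.sum_add_distrib]
    apply Finset.sum_le_sum
    intro k hk
    have h1 := (abs_le.mp (hA k)).2
    have h3 : 0 ≤ η' * w := by positivity
    have h4 : 0 ≤ p k * w := mul_nonneg (hp k) hw0.le
    split_ifs <;> linarith
  have hcard : (G.card : ℝ) + (Gᶜ).card = M := by
    rw [hM, ← Finset.card_add_card_compl G]
    push_cast
    rfl
  have hfin : (G.card : ℝ) * (2 * η' * w) + (Gᶜ).card * (2 * η' * w) ≤ ε * w := by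
    rw [← add_mul, hcard]
    have := mul_le_mul_of_nonneg_right hη'M hw0.le
    linarith
  have hMv : (M : ℝ) * v ≤ ε * w := by
    have h1 : (M : ℝ) * v ≤ M * (w / L) := mul_le_mul_of_nonneg_left hvw (Nat.cast_nonneg _)
    have h2 : (M : ℝ) * (w / L) = M / L * w := by ring
    have h3 := mul_le_mul_of_nonneg_right hLM hw0.le
    linarith
  have : 2 * (K t : ℝ) ≤ 2 * K (t - w) + w + S * w + ε * w + ε * w := by linarith
  linarith

end Pool.Agent.R944.FF.D2
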