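import Pool.Agent.R944.FF.Stm

open scoped BigOperators Topology
open MeasureTheory ProbabilityTheory Filter

namespace Pool.Agent.R944.FF

lemma cnt_zero (b : ℕ → ℕ) : cnt b 0 = 0 := by simp [cnt]

lemma cnt_succ (b : ℕ → ℕ) (n : ℕ) : cnt b (n + 1) ≤ cnt b n + 1 := by
  unfold cnt
  rw [Finset.range_add_one, Finset.image_insert]
  exact Finset.card_insert_le _ _

/-- the complementary cell -/
def comp {d : ℕ} (m : ℕ) [NeZero m] (k : Fin d → Fin m) : Fin d → Fin m :=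
  fun c => ⟨m - 2 - (k c).1, by have := NeZero.pos m; omega⟩

/-- the cells not touching the far boundary -/
def good (d m : ℕ) : Finset (Fin d → Fin m) :=
  Fintype.piFinset (fun _ : Fin d => (Finset.univ.filter (fun j : Fin m => j.1 + 2 ≤ m)))

lemma mem_good {d m : ℕ} (k : Fin d → Fin m) : k ∈ good d m ↔ ∀ c, (k c).1 + 2 ≤ m := by
  simp [good]

lemma card_good (d m : ℕ) [NeZero m] : (good d m).card = (m - 1) ^ d := by
  unfold good
  rw [Fintype.card_piFinset]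
  have h : (Finset.univ.filter (fun j : Fin m => j.1 + 2 ≤ m)).card = m - 1 := by
    have hm := NeZero.pos m
    have : (Finset.univ.filter (fun j : Fin m => j.1 + 2 ≤ m))
        = Finset.univ.erase ⟨m - 1, by omega⟩ := by
      ext j
      have := j.2
      simp only [Finset.mem_filter, Finset.mem_univ, true_and, Finset.mem_erase, and_true, ne_eq,
        Fin.ext_iff]
      omega
    rw [this, Finset.card_erase_of_mem (Finset.mem_univ _)]
    simp
  simp [h]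

lemma bad_sum (d m : ℕ) [NeZero m] :
    (∑ _k ∈ (good d m)ᶜ, (1 : ℝ) / (m : ℝ) ^ d) ≤ d / m := by
  have hm : (0 : ℝ) < m := by exact_mod_cast NeZero.pos m
  have hm1 : 1 ≤ m := NeZero.pos m
  rw [Finset.sum_const, nsmul_eq_mul, Finset.card_compl, card_good]
  have hcard : Fintype.card (Fin d → Fin m) = m ^ d := by simp
  rw [hcard]
  have hle : (m - 1) ^ d ≤ m ^ d := Nat.pow_le_pow_left (by omega) d
  rw [Nat.cast_sub hle]
  push_cast [Nat.cast_sub hm1]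
  have hb := one_add_mul_le_pow (a := -(1 / (m : ℝ))) (by
    have : (1 : ℝ) / m ≤ 1 := by
      rw [div_le_one hm]; exact_mod_cast hm1
    linarith) d
  have e : (1 + -(1 / (m : ℝ))) ^ d = ((m : ℝ) - 1) ^ d / (m : ℝ) ^ d := by
    rw [← div_pow]; congr 1; field_simp; ring
  rw [e] at hb
  have e2 : ((m : ℝ) ^ d - ((m : ℝ) - 1) ^ d) * (1 / (m : ℝ) ^ d)
      = 1 - ((m : ℝ) - 1) ^ d / (m : ℝ) ^ d := by
    field_simp
  rw [e2]
  have e3 : (d : ℝ) * -(1 / (m : ℝ)) = -(d / m) := by ring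
  rw [e3] at hb
  linarith

lemma comp_injOn (d m : ℕ) [NeZero m] :
    Set.InjOn (comp m) (good d m : Set (Fin d → Fin m)) := by
  intro k hk k' hk' h
  rw [Finset.mem_coe, mem_good] at hk hk'
  funext a
  have h1 := congrArg Fin.val (congrFun h a)
  simp only [comp] at h1
  have := hk a
  have := hk' a
  exact Fin.ext (by omega)

lemma fits {d : ℕ} (m : ℕ) [NeZero m] (y z : Fin d → ℝ) (hy : cell m y ∈ good d m)
    (hz : cell m z = comp m (cell m y)) (a : Fin d) : y a + z a ≤ 1 := by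
  rw [mem_good] at hy
  have h1 := hy a
  have h2 := congrArg Fin.val (congrFun hz a)
  simp only [cell, comp] at h1 h2
  have hm := NeZero.pos m
  have hm' : (0 : ℝ) < m := by exact_mod_cast hm
  have e1 : ⌊(m : ℝ) * y a⌋₊ + 2 ≤ m := by omega
  have e2 : ⌊(m : ℝ) * z a⌋₊ = m - 2 - ⌊(m : ℝ) * y a⌋₊ := by omega
  have f1 := Nat.lt_floor_add_one ((m : ℝ) * y a)
  have f2 := Nat.lt_floor_add_one ((m : ℝ) * z a)
  have e3 : ⌊(m : ℝ) * z a⌋₊ + ⌊(m : ℝ) * y a⌋₊ + 2 = m := by omega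
  have e3' : ((⌊(m : ℝ) * z a⌋₊ : ℕ) : ℝ) + ((⌊(m : ℝ) * y a⌋₊ : ℕ) : ℝ) + 2 = m := by
    exact_mod_cast e3
  have : (m : ℝ) * (y a + z a) ≤ m * 1 := by linarith
  exact le_of_mul_le_mul_left this hm'

/-- the deterministic theorem: equidistribution implies the growth bound -/
lemma growth (hD0 : S_D0) (hD1 : S_D1) (hD2 : S_D2) {d : ℕ} (x : ℕ → Fin d → ℝ) (hx : InCube x)
    (hfreq : ∀ m : ℕ, ∀ k : Fin d → Fin (m + 1),
      Tendsto (fun n : ℕ => (arr (fun i => cell (m + 1) (x i)) k 0 n : ℝ) / n) atTop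
        (𝓝 ((1 : ℝ) / ((m + 1 : ℕ) : ℝ) ^ d)))
    (ε : ℝ) (hε : 0 < ε) : ∃ T : ℝ, ∀ n : ℕ, (ffCount x n : ℝ) ≤ (1 / 2 + ε) * n + T := by
  obtain ⟨m, hm⟩ := exists_nat_gt ((d : ℝ) / ε)
  have hm0 : (0 : ℝ) < ((m + 1 : ℕ) : ℝ) := by positivity
  have hdm : (d : ℝ) / ((m + 1 : ℕ) : ℝ) ≤ ε := by
    rw [div_le_iff₀ hm0]
    rw [div_lt_iff₀ hε] at hm
    push_cast
    nlinarith
  have hFF := hD0 d x hx
  obtain ⟨T, hT⟩ := hD2 (cnt (ffBin x)) (cnt_zero _) (cnt_succ _) (Fin d → Fin (m + 1))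
    (fun i => cell (m + 1) (x i)) (good d (m + 1)) (comp (m + 1))
    (sgl (fun i => cell (m + 1) (x i)) (ffBin x))
    (fun _ => (1 : ℝ) / ((m + 1 : ℕ) : ℝ) ^ d) (fun _ _ => rfl) (fun _ => by positivity)
    (fun t w v hw hk => by
      exact hD1 d x hx (ffBin x) hFF (Fin d → Fin (m + 1)) (fun i => cell (m + 1) (x i))
        (good d (m + 1)) (comp (m + 1)) (comp_injOn d (m + 1))
        (fun i j hi hj a => fits (m + 1) (x i) (x j) hi hj a) t w v hw hk)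
    (fun k => hfreq m k) (ε / 2) (half_pos hε)
  refine ⟨T, fun n => ?_⟩
  have h1 := hT n
  have h2 := bad_sum d (m + 1)
  have h3 : (ffCount x n : ℝ) = (cnt (ffBin x) n : ℝ) := rfl
  rw [h3]
  refine h1.trans ?_
  have hn : (0 : ℝ) ≤ n := Nat.cast_nonneg n
  have : 1 / 2 + (∑ _k ∈ (good d (m + 1))ᶜ, (1 : ℝ) / ((m + 1 : ℕ) : ℝ) ^ d) / 2 + ε / 2
      ≤ 1 / 2 + ε := by linarith
  have := mul_le_mul_of_nonneg_right this hn
  linarith

/-- the deterministic conclusion -/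
lemma ratio_tendsto (hD0 : S_D0) (hD1 : S_D1) (hD2 : S_D2) (hO2 : S_O2) (hO3 : S_O3)
    {d : ℕ} (c : Fin d) (x : ℕ → Fin d → ℝ)
    (hx : InCube x)
    (hfreq : ∀ m : ℕ, ∀ k : Fin d → Fin (m + 1),
      Tendsto (fun n : ℕ => (arr (fun i => cell (m + 1) (x i)) k 0 n : ℝ) / n) atTop
        (𝓝 ((1 : ℝ) / ((m + 1 : ℕ) : ℝ) ^ d)))
    (hmean : Tendsto (fun n : ℕ => (∑ i ∈ Finset.range n, x i c) / n) atTop (𝓝 ((1 : ℝ) / 2))) :
    Tendsto (fun n : ℕ => (ffCount x n : ℝ) / (opt x n : ℝ)) atTop (𝓝 1) := by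
  rw [Metric.tendsto_atTop]
  intro δ hδ
  set ε : ℝ := min (δ / 16) (1 / 8) with hεdef
  have hε : 0 < ε := by positivity
  have hε1 : ε ≤ δ / 16 := min_le_left _ _
  have hε2 : ε ≤ 1 / 8 := min_le_right _ _
  obtain ⟨T, hT⟩ := growth hD0 hD1 hD2 x hx hfreq ε hε
  have hev := (Metric.tendsto_atTop.1 hmean) ε hε
  obtain ⟨N1, hN1⟩ := hev
  obtain ⟨N2, hN2⟩ := exists_nat_gt (T / ε)
  refine ⟨max (max N1 N2) 1, fun n hn => ?_⟩
  have hn1 : N1 ≤ n := le_trans (le_trans (le_max_left _ _) (le_max_left _ _)) hn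
  have hn2 : N2 ≤ n := le_trans (le_trans (le_max_right _ _) (le_max_left _ _)) hn
  have hn3 : 1 ≤ n := le_trans (le_max_right _ _) hn
  have hnpos : (0 : ℝ) < n := by exact_mod_cast hn3
  have h1 := hN1 n hn1
  rw [Real.dist_eq, abs_lt] at h1
  have h2 : (1 / 2 - ε) * n ≤ ∑ i ∈ Finset.range n, x i c := by
    have h3 : 1 / 2 - ε < (∑ i ∈ Finset.range n, x i c) / n := by linarith [h1.1]
    rw [lt_div_iff₀ hnpos] at h3
    exact h3.le
  have h4 : (1 / 2 - ε) * n ≤ opt x n := h2.trans (hO2 d x hx n c)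
  have hoptpos : (0 : ℝ) < opt x n := lt_of_lt_of_le (by nlinarith) h4
  have h5 : (opt x n : ℝ) ≤ ffCount x n := by exact_mod_cast hO3 d x hx n
  have h6 : T ≤ ε * n := by
    rw [div_lt_iff₀ hε] at hN2
    have : (N2 : ℝ) ≤ n := by exact_mod_cast hn2
    nlinarith
  have h7 : (ffCount x n : ℝ) ≤ (1 / 2 + 2 * ε) * n := by
    have := hT n
    nlinarith
  have h8 : (1 : ℝ) ≤ (ffCount x n : ℝ) / (opt x n : ℝ) := by
    rw [le_div_iff₀ hoptpos]; linarith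
  have h9 : (ffCount x n : ℝ) / (opt x n : ℝ) ≤ 1 + δ / 2 := by
    rw [div_le_iff₀ hoptpos]
    refine h7.trans ?_
    have h10 : (1 / 2 + 2 * ε) * n ≤ (1 + δ / 2) * ((1 / 2 - ε) * n) := by
      have : (1 / 2 + 2 * ε) ≤ (1 + δ / 2) * (1 / 2 - ε) := by nlinarith
      nlinarith
    refine h10.trans ?_
    exact mul_le_mul_of_nonneg_left h4 (by linarith)
  rw [Real.dist_eq, abs_lt]
  constructor <;> linarith

theorem assembly (hD0 : S_D0) (hD1 : S_D1) (hD2 : S_D2) (hP1 : S_P1) (hP2 : S_P2) (hP3 : S_P3)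
    (hP4 : S_P4) (hP5 : S_P5) (hO1 : S_O1) (hO2 : S_O2) (hO3 : S_O3)
    (d : ℕ) (hd : 1 ≤ d) (Ω : Type) [MeasurableSpace Ω] (P : Measure Ω) [IsProbabilityMeasure P]
    (X : ℕ → Ω → Fin d → ℝ) (hX : IIDUnif P d X) :
    (∀ᵐ ω ∂P, Tendsto (fun n : ℕ => (ffCount (fun i => X i ω) n : ℝ)
      / (opt (fun i => X i ω) n : ℝ)) atTop (𝓝 1)) ∧
    Tendsto (fun n : ℕ => ∫ ω, (ffCount (fun i => X i ω) n : ℝ)
      / (opt (fun i => X i ω) n : ℝ) ∂P) atTop (𝓝 1) := by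
  have hcube := hP2 Ω P d X hX
  have hfreq : ∀ᵐ ω ∂P, ∀ m : ℕ, ∀ k : Fin d → Fin (m + 1),
      Tendsto (fun n : ℕ => (arr (fun i => cell (m + 1) (X i ω)) k 0 n : ℝ) / n) atTop
        (𝓝 ((1 : ℝ) / ((m + 1 : ℕ) : ℝ) ^ d)) := by
    rw [ae_all_iff]
    intro m
    rw [ae_all_iff]
    intro k
    exact hP1 Ω P d X hX (m + 1) k
  have hmean := hP3 Ω P d X hX ⟨0, hd⟩
  have hlim : ∀ᵐ ω ∂P, Tendsto (fun n : ℕ => (ffCount (fun i => X i ω) n : ℝ)
      / (opt (fun i => X i ω) n : ℝ)) atTop (𝓝 1) := by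
    filter_upwards [hcube, hfreq, hmean] with ω h1 h2 h3
    exact ratio_tendsto hD0 hD1 hD2 hO2 hO3 ⟨0, hd⟩ (fun i => X i ω) h1 h2 h3
  refine ⟨hlim, ?_⟩
  have hmeas : ∀ n : ℕ, Measurable (fun ω => (ffCount (fun i => X i ω) n : ℝ)
      / (opt (fun i => X i ω) n : ℝ)) := by
    intro n
    have h1 : Measurable (fun ω => (ffCount (fun i => X i ω) n : ℝ)) :=
      (measurable_of_countable (fun k : ℕ => (k : ℝ))).comp (hP4 Ω d X hX.meas n)
    have h2 : Measurable (fun ω => (opt (fun i => X i ω) n : ℝ)) :=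
      (measurable_of_countable (fun k : ℕ => (k : ℝ))).comp (hP5 Ω d X hX.meas n)
    exact h1.div h2
  have key := tendsto_integral_of_dominated_convergence (μ := P)
    (F := fun (n : ℕ) ω => (ffCount (fun i => X i ω) n : ℝ) / (opt (fun i => X i ω) n : ℝ))
    (f := fun _ => (1 : ℝ)) (fun _ => (2 * d + 1 : ℝ))
    (fun n => (hmeas n).aestronglyMeasurable) (integrable_const _)
    (fun n => by
      filter_upwards [hcube] with ω h1
      have h2 := hO1 d hd (fun i => X i ω) h1 n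
      have h3 : (ffCount (fun i => X i ω) n : ℝ) ≤ (2 * d + 1) * (opt (fun i => X i ω) n : ℝ) := by
        exact_mod_cast h2
      rw [Real.norm_of_nonneg (by positivity)]
      exact div_le_of_le_mul₀ (by positivity) (by positivity) h3)
    hlim
  simpa using key

end Pool.Agent.R944.FF
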