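import Mathlib

open scoped BigOperators Topology
open MeasureTheory ProbabilityTheory Filter

namespace Pool.Agent.R944.FF

/-- `ffBin x i` is the number of the bin into which First Fit puts item `i`: bins are numbered
`0, 1, 2, …`, all empty at the start, and item `i` goes into the bin with the least number to
which it can be added while every coordinate sum stays at most `1`. -/
noncomputable def ffBin {d : ℕ} (x : ℕ → Fin d → ℝ) : ℕ → ℕ
  | i => sInf {j : ℕ | ∀ c, (∑ k : Fin i, if ffBin x k.1 = j then x k.1 c else 0) + x i c ≤ 1}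
termination_by i => i
decreasing_by exact k.2

/-- the number of bins used by First Fit on the items `x 0, …, x (n-1)` -/
noncomputable def ffCount {d : ℕ} (x : ℕ → Fin d → ℝ) (n : ℕ) : ℕ :=
  ((Finset.range n).image (ffBin x)).card

/-- the least number of bins into which the items `x 0, …, x (n-1)` can be packed -/
noncomputable def opt {d : ℕ} (x : ℕ → Fin d → ℝ) (n : ℕ) : ℕ :=
  sInf {k : ℕ | ∃ f : Fin n → Fin k, ∀ (b : Fin k) (c : Fin d),
    (∑ i : Fin n, if f i = b then x i.1 c else 0) ≤ 1}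

/-- the two rules of First Fit for an assignment `b` of items to bins -/
structure IsFF {d : ℕ} (x : ℕ → Fin d → ℝ) (b : ℕ → ℕ) : Prop where
  fit : ∀ i c, (∑ k ∈ Finset.range i, if b k = b i then x k c else 0) + x i c ≤ 1
  least : ∀ i, ∀ j < b i, ∃ c, 1 < (∑ k ∈ Finset.range i, if b k = j then x k c else 0) + x i c

/-- items in the unit cube -/
def InCube {d : ℕ} (x : ℕ → Fin d → ℝ) : Prop := ∀ i c, 0 ≤ x i c ∧ x i c ≤ 1

/-- (D0) -/
def S_D0 : Prop := ∀ (d : ℕ) (x : ℕ → Fin d → ℝ), InCube x → IsFF x (ffBin x)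

/-- number of bins used by the first `n` items under the assignment `b` -/
def cnt (b : ℕ → ℕ) (n : ℕ) : ℕ := ((Finset.range n).image b).card

/-- number of items of type `k` in the first `n` items that are alone in their bin at time `n` -/
def sgl {ι : Type} [DecidableEq ι] (τ : ℕ → ι) (b : ℕ → ℕ) (k : ι) (n : ℕ) : ℕ :=
  ((Finset.range n).filter (fun i => τ i = k ∧ ∀ j ∈ Finset.range n, j ≠ i → b j ≠ b i)).card

/-- number of items of type `k` among the items `s, …, t-1` -/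
def arr {ι : Type} [DecidableEq ι] (τ : ℕ → ι) (k : ι) (s t : ℕ) : ℕ :=
  ((Finset.Ico s t).filter (fun i => τ i = k)).card

/-- (D1) the window inequality -/
def S_D1 : Prop := ∀ (d : ℕ) (x : ℕ → Fin d → ℝ), InCube x → ∀ (b : ℕ → ℕ), IsFF x b →
  ∀ (ι : Type) [Fintype ι] [DecidableEq ι] (τ : ℕ → ι) (G : Finset ι) (c : ι → ι),
  Set.InjOn c (G : Set ι) →
  (∀ i j, τ i ∈ G → τ j = c (τ i) → ∀ a, x i a + x j a ≤ 1) →
  ∀ (t w v : ℕ), w ≤ t → (∀ k, sgl τ b k t ≤ v ∨ w < sgl τ b k t) →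
    2 * cnt b t + ∑ k ∈ G.filter (fun k => w < sgl τ b k t), arr τ (c k) (t - w) t
      ≤ 2 * cnt b (t - w) + w
        + ∑ k ∈ Finset.univ.filter (fun k => w < sgl τ b k t), arr τ k (t - w) t
        + Fintype.card ι * v

/-- (D2) growth bound from the window inequality and equidistribution of the types -/
def S_D2 : Prop := ∀ (K : ℕ → ℕ), K 0 = 0 → (∀ n, K (n + 1) ≤ K n + 1) →
  ∀ (ι : Type) [Fintype ι] [DecidableEq ι] (τ : ℕ → ι) (G : Finset ι) (c : ι → ι)
    (N : ι → ℕ → ℕ) (p : ι → ℝ), (∀ k ∈ G, p (c k) = p k) → (∀ k, 0 ≤ p k) →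
  (∀ (t w v : ℕ), w ≤ t → (∀ k, N k t ≤ v ∨ w < N k t) →
    2 * K t + ∑ k ∈ G.filter (fun k => w < N k t), arr τ (c k) (t - w) t
      ≤ 2 * K (t - w) + w
        + ∑ k ∈ Finset.univ.filter (fun k => w < N k t), arr τ k (t - w) t
        + Fintype.card ι * v) →
  (∀ k, Tendsto (fun n : ℕ => (arr τ k 0 n : ℝ) / n) atTop (𝓝 (p k))) →
  ∀ ε : ℝ, 0 < ε → ∃ T : ℝ, ∀ n : ℕ,
    (K n : ℝ) ≤ (1 / 2 + (∑ k ∈ Gᶜ, p k) / 2 + ε) * n + T

/-- the cell of `y` in the grid with `m` cells in each direction -/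
noncomputable def cell {d : ℕ} (m : ℕ) [NeZero m] (y : Fin d → ℝ) : Fin d → Fin m :=
  fun c => ⟨min ⌊(m : ℝ) * y c⌋₊ (m - 1), by
    have := NeZero.pos m
    omega⟩

/-- independent items, each uniform on the cube `[0,1]^d` -/
structure IIDUnif {Ω : Type*} [MeasurableSpace Ω] (P : Measure Ω) (d : ℕ)
    (X : ℕ → Ω → Fin d → ℝ) : Prop where
  meas : ∀ i, Measurable (X i)
  indep : iIndepFun X P
  unif : ∀ i, Measure.map (X i) P = (volume : Measure (Fin d → ℝ)).restrict (Set.Icc 0 1)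

/-- (P1) frequencies of the cells -/
def S_P1 : Prop := ∀ (Ω : Type) [MeasurableSpace Ω] (P : Measure Ω) [IsProbabilityMeasure P]
  (d : ℕ) (X : ℕ → Ω → Fin d → ℝ), IIDUnif P d X → ∀ (m : ℕ) [NeZero m] (k : Fin d → Fin m),
  ∀ᵐ ω ∂P, Tendsto (fun n : ℕ => (arr (fun i => cell m (X i ω)) k 0 n : ℝ) / n) atTop
    (𝓝 ((1 : ℝ) / (m : ℝ) ^ d))

/-- (P2) the items lie in the cube almost surely -/
def S_P2 : Prop := ∀ (Ω : Type) [MeasurableSpace Ω] (P : Measure Ω) [IsProbabilityMeasure P]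
  (d : ℕ) (X : ℕ → Ω → Fin d → ℝ), IIDUnif P d X → ∀ᵐ ω ∂P, InCube (fun i => X i ω)

/-- (P3) mean of a coordinate -/
def S_P3 : Prop := ∀ (Ω : Type) [MeasurableSpace Ω] (P : Measure Ω) [IsProbabilityMeasure P]
  (d : ℕ) (X : ℕ → Ω → Fin d → ℝ), IIDUnif P d X → ∀ c : Fin d,
  ∀ᵐ ω ∂P, Tendsto (fun n : ℕ => (∑ i ∈ Finset.range n, X i ω c) / n) atTop (𝓝 ((1 : ℝ) / 2))

/-- (P4) measurability of the number of First Fit bins -/
def S_P4 : Prop := ∀ (Ω : Type) [MeasurableSpace Ω] (d : ℕ) (X : ℕ → Ω → Fin d → ℝ),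
  (∀ i, Measurable (X i)) → ∀ n : ℕ, Measurable (fun ω => ffCount (fun i => X i ω) n)

/-- (P5) measurability of the optimum -/
def S_P5 : Prop := ∀ (Ω : Type) [MeasurableSpace Ω] (d : ℕ) (X : ℕ → Ω → Fin d → ℝ),
  (∀ i, Measurable (X i)) → ∀ n : ℕ, Measurable (fun ω => opt (fun i => X i ω) n)

/-- (O1) First Fit is within a constant factor of the optimum -/
def S_O1 : Prop := ∀ (d : ℕ), 1 ≤ d → ∀ (x : ℕ → Fin d → ℝ), InCube x → ∀ n : ℕ,
  ffCount x n ≤ (2 * d + 1) * opt x n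

/-- (O2) volume bound for the optimum -/
def S_O2 : Prop := ∀ (d : ℕ) (x : ℕ → Fin d → ℝ), InCube x → ∀ (n : ℕ) (c : Fin d),
  (∑ i ∈ Finset.range n, x i c) ≤ opt x n

/-- (O3) the optimum is at most First Fit -/
def S_O3 : Prop := ∀ (d : ℕ) (x : ℕ → Fin d → ℝ), InCube x → ∀ (n : ℕ), opt x n ≤ ffCount x n

end Pool.Agent.R944.FF
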