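import Mathlib
import Pool.Agent.R944.FF.Stm

/-! FF-O2 (helper584): volume bound for the optimum; the optimum is at most First Fit. -/

set_option autoImplicit false

open scoped BigOperators

namespace Pool.Agent.R944.FF.O2

open Pool.Agent.R944.FF

variable {d : ℕ} {x : ℕ → Fin d → ℝ}

theorem opt_spec (hx : InCube x) (n : ℕ) :
    ∃ f : Fin n → Fin (opt x n), ∀ (b : Fin (opt x n)) (c : Fin d),
      (∑ i : Fin n, if f i = b then x i.1 c else 0) ≤ 1 := by
  have hne : {k : ℕ | ∃ f : Fin n → Fin k, ∀ (b : Fin k) (c : Fin d),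
      (∑ i : Fin n, if f i = b then x i.1 c else 0) ≤ 1}.Nonempty := by
    refine ⟨n, id, fun b c => ?_⟩
    simp only [id]
    rw [Finset.sum_ite_eq' Finset.univ b (fun i : Fin n => x i.1 c)]
    simp only [Finset.mem_univ, if_true]
    exact (hx b.1 c).2
  exact Nat.sInf_mem hne

theorem vol (hx : InCube x) (n : ℕ) (c : Fin d) : (∑ i ∈ Finset.range n, x i c) ≤ opt x n := by
  obtain ⟨f, hf⟩ := opt_spec hx n
  have h1 : (∑ i ∈ Finset.range n, x i c) =
      ∑ b : Fin (opt x n), ∑ i : Fin n, if f i = b then x i.1 c else 0 := by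
    rw [Finset.sum_comm, Finset.sum_range]
    refine Finset.sum_congr rfl fun i _ => ?_
    rw [Finset.sum_ite_eq]
    simp
  rw [h1]
  calc (∑ b : Fin (opt x n), ∑ i : Fin n, if f i = b then x i.1 c else 0)
      ≤ ∑ _b : Fin (opt x n), (1 : ℝ) := Finset.sum_le_sum fun b _ => hf b c
    _ = opt x n := by simp

theorem dc_eq_range (s : Finset ℕ) (h : ∀ m ∈ s, ∀ j < m, j ∈ s) : s = Finset.range s.card := by
  refine Finset.eq_of_subset_of_card_le ?_ (by simp)
  intro m hm
  have h1 : Finset.range (m + 1) ⊆ s := by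
    intro j hj
    rw [Finset.mem_range] at hj
    rcases Nat.lt_succ_iff_lt_or_eq.1 hj with h2 | h2
    · exact h m hm j h2
    · rw [h2]; exact hm
  have h2 := Finset.card_le_card h1
  rw [Finset.card_range] at h2
  rw [Finset.mem_range]
  omega

theorem image_eq (hx : InCube x) {b : ℕ → ℕ} (hb : IsFF x b) (n : ℕ) :
    (Finset.range n).image b = Finset.range ((Finset.range n).image b).card := by
  refine dc_eq_range _ ?_
  intro m hm j hj
  obtain ⟨i, hi, rfl⟩ := Finset.mem_image.1 hm
  rw [Finset.mem_range] at hi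
  by_contra hcon
  obtain ⟨c, hc⟩ := hb.least i j hj
  have h0 : (∑ k ∈ Finset.range i, if b k = j then x k c else 0) = 0 := by
    refine Finset.sum_eq_zero fun k hk => ?_
    rw [Finset.mem_range] at hk
    rw [if_neg]
    intro h
    exact hcon (Finset.mem_image.2 ⟨k, Finset.mem_range.2 (hk.trans hi), h⟩)
  rw [h0, zero_add] at hc
  exact absurd (hx i c).2 (not_le.2 hc)

theorem content_le {b : ℕ → ℕ} (hb : IsFF x b) (n j : ℕ) (c : Fin d) :
    (∑ k ∈ Finset.range n, if b k = j then x k c else 0) ≤ 1 := by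
  induction n with
  | zero => simp
  | succ n ih =>
    rw [Finset.sum_range_succ]
    by_cases h : b n = j
    · rw [if_pos h]
      have := hb.fit n c
      rwa [h] at this
    · rw [if_neg h, add_zero]
      exact ih

theorem main : S_O2 ∧ (S_D0 → S_O3) := by
  refine ⟨fun d x hx n c => vol hx n c, ?_⟩
  intro hD0 d x hx n
  have hb := hD0 d x hx
  have him := image_eq hx hb n
  refine Nat.sInf_le ?_
  have hlt : ∀ i : Fin n, ffBin x i.1 < ffCount x n := by
    intro i
    have h1 : ffBin x i.1 ∈ (Finset.range n).image (ffBin x) :=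
      Finset.mem_image.2 ⟨i.1, Finset.mem_range.2 i.2, rfl⟩
    rw [him, Finset.mem_range] at h1
    exact h1
  refine ⟨fun i => ⟨ffBin x i.1, hlt i⟩, fun b c => ?_⟩
  have h2 := content_le hb n b.1 c
  rw [Finset.sum_range] at h2
  refine le_trans (le_of_eq ?_) h2
  refine Finset.sum_congr rfl fun i _ => ?_
  simp only [Fin.ext_iff]

end Pool.Agent.R944.FF.O2
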