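import Mathlib
import Pool.Agent.R944.FF.Stm
import Pool.Agent.R944.FF.O2

/-! FF-O1 (helper584): First Fit is within a constant factor of the optimum. -/

set_option autoImplicit false

open scoped BigOperators

namespace Pool.Agent.R944.FF.O1

open Pool.Agent.R944.FF

theorem sum_pairs (g : ℕ → ℝ) (h : ℕ) :
    ∑ j ∈ Finset.range h, (g (2 * j) + g (2 * j + 1)) = ∑ m ∈ Finset.range (2 * h), g m := by
  induction h with
  | zero => simp
  | succ h ih =>
    rw [Finset.sum_range_succ, ih, show 2 * (h + 1) = 2 * h + 1 + 1 by ring,
      Finset.sum_range_succ, Finset.sum_range_succ]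
    ring

theorem main : S_D0 → S_O1 := by
  intro hD0 d hd x hx n
  have hb := hD0 d x hx
  have him := O2.image_eq hx hb n
  set K := ffCount x n with hK
  have hK' : ((Finset.range n).image (ffBin x)).card = K := rfl
  rw [hK'] at him
  rcases Nat.eq_zero_or_pos n with hn | hn
  · subst hn
    have : K = 0 := by
      rw [hK]; simp [ffCount]
    omega
  · have hopt : 1 ≤ opt x n := by
      obtain ⟨f, -⟩ := O2.opt_spec hx n
      have := (f ⟨0, hn⟩).2
      omega
    -- contents
    let C : ℕ → Fin d → ℝ := fun m c =>
      ∑ k ∈ Finset.range n, if ffBin x k = m then x k c else 0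
    have hC0 : ∀ m c, 0 ≤ C m c := by
      intro m c
      refine Finset.sum_nonneg fun k _ => ?_
      split_ifs
      · exact (hx k c).1
      · exact le_rfl
    have hpair : ∀ j ∈ Finset.range (K / 2), (1 : ℝ) ≤ ∑ c, (C (2 * j) c + C (2 * j + 1) c) := by
      intro j hj
      rw [Finset.mem_range] at hj
      have h1 : 2 * j + 1 ∈ (Finset.range n).image (ffBin x) := by
        rw [him, Finset.mem_range]
        omega
      obtain ⟨i, hi, hij⟩ := Finset.mem_image.1 h1
      rw [Finset.mem_range] at hi
      obtain ⟨c, hc⟩ := hb.least i (2 * j) (by omega)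
      have h2 : (∑ k ∈ Finset.range i, if ffBin x k = 2 * j then x k c else 0) ≤ C (2 * j) c := by
        refine Finset.sum_le_sum_of_subset_of_nonneg ?_ ?_
        · intro k hk
          rw [Finset.mem_range] at hk ⊢
          omega
        · intro k _ _
          split_ifs
          · exact (hx k c).1
          · exact le_rfl
      have h3 : x i c ≤ C (2 * j + 1) c := by
        have h4 : (if ffBin x i = 2 * j + 1 then x i c else 0) ≤ C (2 * j + 1) c := by
          refine Finset.single_le_sum (f := fun k => if ffBin x k = 2 * j + 1 then x k c else 0)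
            ?_ (Finset.mem_range.2 hi)
          intro k _
          split_ifs
          · exact (hx k c).1
          · exact le_rfl
        rwa [if_pos hij] at h4
      have h5 : C (2 * j) c + C (2 * j + 1) c ≤ ∑ c, (C (2 * j) c + C (2 * j + 1) c) :=
        Finset.single_le_sum (f := fun c => C (2 * j) c + C (2 * j + 1) c)
          (fun c _ => add_nonneg (hC0 _ _) (hC0 _ _)) (Finset.mem_univ c)
      linarith
    have hsum : ((K / 2 : ℕ) : ℝ) ≤ d * opt x n := by
      have h1 : ((K / 2 : ℕ) : ℝ) ≤
          ∑ j ∈ Finset.range (K / 2), ∑ c, (C (2 * j) c + C (2 * j + 1) c) := by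
        have := Finset.sum_le_sum hpair
        simpa using this
      rw [Finset.sum_comm] at h1
      have h2 : ∀ c, ∑ j ∈ Finset.range (K / 2), (C (2 * j) c + C (2 * j + 1) c) ≤
          ∑ k ∈ Finset.range n, x k c := by
        intro c
        rw [sum_pairs (fun m => C m c)]
        change ∑ m ∈ Finset.range (2 * (K / 2)), ∑ k ∈ Finset.range n,
          (if ffBin x k = m then x k c else 0) ≤ _
        rw [Finset.sum_comm]
        refine Finset.sum_le_sum fun k _ => ?_
        rw [Finset.sum_ite_eq]
        split_ifs
        · exact le_rfl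
        · exact (hx k c).1
      have h3 : ∑ c : Fin d, ∑ j ∈ Finset.range (K / 2), (C (2 * j) c + C (2 * j + 1) c) ≤
          ∑ _c : Fin d, (opt x n : ℝ) :=
        Finset.sum_le_sum fun c _ => (h2 c).trans (O2.vol hx n c)
      rw [Finset.sum_const, Finset.card_univ, Fintype.card_fin, nsmul_eq_mul] at h3
      exact h1.trans h3
    have hsum' : K / 2 ≤ d * opt x n := by exact_mod_cast hsum
    have h6 : K ≤ 2 * (d * opt x n) + 1 := by omega
    calc K ≤ 2 * (d * opt x n) + 1 := h6
      _ ≤ 2 * (d * opt x n) + opt x n := by omega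
      _ = (2 * d + 1) * opt x n := by ring

end Pool.Agent.R944.FF.O1
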