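import Pool.Agent.R944.FF.Stm

/-!
Piece FF-P1 (helper944), by helper568: frequencies of the cells.
-/

open scoped BigOperators Topology
open MeasureTheory ProbabilityTheory Filter

namespace Pool.Agent.R944.FF.P1

/-- strong law for a function of the items -/
theorem slln {Ω : Type} [MeasurableSpace Ω] (P : Measure Ω) [IsProbabilityMeasure P]
    (d : ℕ) (X : ℕ → Ω → Fin d → ℝ) (h : IIDUnif P d X) (g : (Fin d → ℝ) → ℝ)
    (hg : Measurable g)
    (hint : Integrable g ((volume : Measure (Fin d → ℝ)).restrict (Set.Icc 0 1))) :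
    ∀ᵐ ω ∂P, Tendsto (fun n : ℕ => (∑ i ∈ Finset.range n, g (X i ω)) / n) atTop
      (𝓝 (∫ y in Set.Icc (0 : Fin d → ℝ) 1, g y)) := by
  have hmap : ∀ i, Measure.map (fun ω => g (X i ω)) P =
      Measure.map g ((volume : Measure (Fin d → ℝ)).restrict (Set.Icc 0 1)) := by
    intro i
    rw [← h.unif i, Measure.map_map hg (h.meas i)]
    rfl
  have h0 : Integrable (fun ω => g (X 0 ω)) P := by
    have := hint
    rw [← h.unif 0] at this
    exact this.comp_measurable (h.meas 0)
  have key := strong_law_ae_real (fun i ω => g (X i ω)) h0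
    (fun i j hij => (h.indep.indepFun hij).comp hg hg)
    (fun i => ⟨(hg.comp (h.meas i)).aemeasurable, (hg.comp (h.meas 0)).aemeasurable, by
      rw [hmap i, hmap 0]⟩)
  have hm : ∫ ω, g (X 0 ω) ∂P = ∫ y in Set.Icc (0 : Fin d → ℝ) 1, g y := by
    rw [← h.unif 0, integral_map (h.meas 0).aemeasurable hg.aestronglyMeasurable]
  rw [← hm]
  exact key

lemma cell_meas {d : ℕ} (m : ℕ) [NeZero m] (k : Fin d → Fin m) :
    MeasurableSet {y : Fin d → ℝ | cell m y = k} := by
  have : {y : Fin d → ℝ | cell m y = k} =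
      ⋂ c, (fun y : Fin d → ℝ => ⌊(m : ℝ) * y c⌋₊) ⁻¹' {v : ℕ | min v (m - 1) = (k c).1} := by
    ext y
    simp only [Set.mem_ofPred_eq, Set.mem_iInter, Set.mem_preimage]
    constructor
    · intro h c
      rw [← h]
      rfl
    · intro h
      funext c
      exact Fin.ext (h c)
  rw [this]
  refine MeasurableSet.iInter fun c => ?_
  have hc : Measurable (fun y : Fin d → ℝ => (m : ℝ) * y c) :=
    (show Measurable (fun y : Fin d → ℝ => y c) from measurable_pi_apply c).const_mul (m : ℝ)
  exact (Nat.measurable_floor.comp hc) (MeasurableSet.of_discrete)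

lemma vol_one (m : ℕ) (hm : 0 < m) (k : ℕ) (hk : k < m) :
    volume {t : ℝ | (0 ≤ t ∧ t ≤ 1) ∧ min ⌊(m : ℝ) * t⌋₊ (m - 1) = k} = ENNReal.ofReal (1 / m) := by
  have hm' : (0 : ℝ) < m := by exact_mod_cast hm
  have hlen : ((k : ℝ) + 1) / m - k / m = 1 / m := by ring
  apply le_antisymm
  · rw [← hlen, ← Real.volume_Icc]
    refine measure_mono ?_
    rintro t ⟨⟨h0, h1⟩, h2⟩
    have hmt : 0 ≤ (m : ℝ) * t := by positivity
    rw [Set.mem_Icc, div_le_iff₀ hm', le_div_iff₀ hm']
    constructor
    · have : k ≤ ⌊(m : ℝ) * t⌋₊ := h2 ▸ min_le_left _ _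
      have := (Nat.le_floor_iff hmt).mp this
      linarith
    · rcases le_or_gt ⌊(m : ℝ) * t⌋₊ (m - 1) with h3 | h3
      · rw [min_eq_left h3] at h2
        have := Nat.lt_floor_add_one ((m : ℝ) * t)
        rw [h2] at this
        linarith
      · rw [min_eq_right h3.le] at h2
        have : k + 1 = m := by omega
        have : (k : ℝ) + 1 = m := by exact_mod_cast this
        rw [this]
        nlinarith
  · rw [← hlen, ← Real.volume_Ioo]
    refine measure_mono ?_
    intro t ht
    rw [Set.mem_Ioo, div_lt_iff₀ hm', lt_div_iff₀ hm'] at ht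
    obtain ⟨h1, h2⟩ := ht
    have hk0 : (0 : ℝ) ≤ k := by positivity
    have hkm : (k : ℝ) + 1 ≤ m := by exact_mod_cast hk
    have ht0 : 0 ≤ t := by
      by_contra hc
      push Not at hc
      nlinarith
    refine ⟨⟨ht0, ?_⟩, ?_⟩
    · by_contra hc
      push Not at hc
      nlinarith
    · have : ⌊(m : ℝ) * t⌋₊ = k := by
        rw [Nat.floor_eq_iff (by positivity)]
        constructor <;> linarith
      rw [this]
      exact min_eq_left (by omega)

lemma vol_cell {d : ℕ} (m : ℕ) [NeZero m] (k : Fin d → Fin m) :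
    volume ({y : Fin d → ℝ | cell m y = k} ∩ Set.Icc 0 1) = ENNReal.ofReal ((1 / (m : ℝ)) ^ d) := by
  have hm := NeZero.pos m
  have : {y : Fin d → ℝ | cell m y = k} ∩ Set.Icc 0 1 =
      Set.pi Set.univ (fun c => {t : ℝ | (0 ≤ t ∧ t ≤ 1) ∧
        min ⌊(m : ℝ) * t⌋₊ (m - 1) = (k c).1}) := by
    ext y
    simp only [Set.mem_inter_iff, Set.mem_ofPred_eq, Set.mem_Icc, Set.mem_pi, Set.mem_univ,
      true_imp_iff, Pi.le_def, Pi.zero_apply, Pi.one_apply]
    constructor
    · rintro ⟨h, h0, h1⟩ c
      refine ⟨⟨h0 c, h1 c⟩, ?_⟩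
      rw [← h]
      rfl
    · intro h
      refine ⟨?_, fun c => (h c).1.1, fun c => (h c).1.2⟩
      funext c
      exact Fin.ext (h c).2
  rw [this, volume_pi_pi, Finset.prod_congr rfl (fun c _ => vol_one m hm (k c).1 (k c).2),
    Finset.prod_const, Finset.card_univ, Fintype.card_fin, ENNReal.ofReal_pow (by positivity)]

theorem main : S_P1 := by
  intro Ω _ P _ d X h m _ k
  have hA := cell_meas m k
  set A : Set (Fin d → ℝ) := {y | cell m y = k} with hAdef
  have hg : Measurable (A.indicator (fun _ => (1 : ℝ))) := measurable_const.indicator hA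
  have : IsFiniteMeasure ((volume : Measure (Fin d → ℝ)).restrict (Set.Icc 0 1)) := by
    rw [← h.unif 0]
    infer_instance
  have hint : Integrable (A.indicator (fun _ => (1 : ℝ)))
      ((volume : Measure (Fin d → ℝ)).restrict (Set.Icc 0 1)) :=
    (integrable_const (1 : ℝ)).indicator hA
  have hval : ∫ y in Set.Icc (0 : Fin d → ℝ) 1, A.indicator (fun _ => (1 : ℝ)) y =
      1 / (m : ℝ) ^ d := by
    rw [integral_indicator hA, integral_const, smul_eq_mul, mul_one, Measure.real,
      Measure.restrict_apply MeasurableSet.univ, Set.univ_inter,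
      Measure.restrict_apply hA, vol_cell m k, ENNReal.toReal_ofReal (by positivity), one_div_pow]
  have key := slln P d X h _ hg hint
  rw [hval] at key
  filter_upwards [key] with ω hω
  refine hω.congr fun n => ?_
  congr 1
  rw [arr, Finset.card_filter]
  push_cast
  rw [Finset.range_eq_Ico]
  refine Finset.sum_congr rfl fun i _ => ?_
  by_cases hc : cell m (X i ω) = k
  · rw [if_pos hc, Set.indicator_of_mem (show X i ω ∈ A from hc)]
  · rw [if_neg hc, Set.indicator_of_notMem (show X i ω ∉ A from hc)]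

end Pool.Agent.R944.FF.P1
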