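import Pool.Agent.R944.FF.P1

/-!
Piece FF-P2 (helper944), by helper568: the items lie in the cube, mean of a coordinate.
-/

open scoped BigOperators Topology
open MeasureTheory ProbabilityTheory Filter

namespace Pool.Agent.R944.FF.P2

theorem p2 : S_P2 := by
  intro Ω _ P _ d X h
  have : ∀ i, ∀ᵐ ω ∂P, X i ω ∈ Set.Icc (0 : Fin d → ℝ) 1 := by
    intro i
    have h1 : ∀ᵐ y ∂(Measure.map (X i) P), y ∈ Set.Icc (0 : Fin d → ℝ) 1 := by
      rw [h.unif i]
      exact ae_restrict_mem measurableSet_Icc
    exact ae_of_ae_map (h.meas i).aemeasurable h1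
  filter_upwards [ae_all_iff.mpr this] with ω hω
  intro i c
  exact ⟨(hω i).1 c, (hω i).2 c⟩

lemma mean_coord (d : ℕ) (c : Fin d) :
    ∫ y in Set.Icc (0 : Fin d → ℝ) 1, y c = 1 / 2 := by
  have : IsProbabilityMeasure ((volume : Measure ℝ).restrict (Set.Icc 0 1)) := by
    constructor
    rw [Measure.restrict_apply MeasurableSet.univ, Set.univ_inter, Real.volume_Icc]
    norm_num
  have h1 : (volume : Measure (Fin d → ℝ)).restrict (Set.Icc 0 1) =
      Measure.pi (fun _ : Fin d => (volume : Measure ℝ).restrict (Set.Icc 0 1)) := by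
    rw [← Measure.restrict_pi_pi, ← volume_pi]
    congr 1
    exact (Set.pi_univ_Icc (0 : Fin d → ℝ) 1).symm
  have h2 := (measurePreserving_eval
    (fun _ : Fin d => (volume : Measure ℝ).restrict (Set.Icc (0 : ℝ) 1)) c)
  rw [h1]
  have h3 : ∫ t, t ∂((volume : Measure ℝ).restrict (Set.Icc (0 : ℝ) 1)) =
      ∫ y : Fin d → ℝ, y c ∂(Measure.pi
        (fun _ : Fin d => (volume : Measure ℝ).restrict (Set.Icc 0 1))) := by
    have h4 := integral_map (μ := Measure.pi
        (fun _ : Fin d => (volume : Measure ℝ).restrict (Set.Icc (0 : ℝ) 1)))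
      (f := fun t : ℝ => t) h2.measurable.aemeasurable
      measurable_id.aestronglyMeasurable
    rw [h2.map_eq] at h4
    exact h4
  rw [← h3, integral_Icc_eq_integral_Ioc, ← intervalIntegral.integral_of_le (by norm_num),
    integral_id]
  norm_num

theorem p3 : S_P3 := by
  intro Ω _ P _ d X h c
  have hint : Integrable (fun y : Fin d → ℝ => y c)
      ((volume : Measure (Fin d → ℝ)).restrict (Set.Icc 0 1)) :=
    (continuous_apply c).integrableOn_Icc
  have key := P1.slln P d X h (fun y => y c) (measurable_pi_apply c) hint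
  rw [mean_coord d c] at key
  exact key

theorem main : S_P2 ∧ S_P3 := ⟨p2, p3⟩

end Pool.Agent.R944.FF.P2
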