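import Pool.Agent.R944.FF.Stm

set_option autoImplicit false

open scoped BigOperators Topology
open MeasureTheory ProbabilityTheory Filter

namespace Pool.Agent.R944.FF.P4

open Pool.Agent.R944.FF

theorem measurable_sInf {Ω : Type} [MeasurableSpace Ω] (A : ℕ → Set Ω)
    (hA : ∀ j, MeasurableSet (A j)) : Measurable (fun ω => sInf {j : ℕ | ω ∈ A j}) := by
  refine measurable_to_countable' fun j => ?_
  have h : (fun ω => sInf {j : ℕ | ω ∈ A j}) ⁻¹' {j} =
      (A j ∩ ⋂ i : Fin j, (A i)ᶜ) ∪ ((⋂ i : ℕ, (A i)ᶜ) ∩ {_ω | j = 0}) := by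
    ext ω
    have h1 : ω ∈ (fun ω => sInf {j : ℕ | ω ∈ A j}) ⁻¹' {j} ↔ sInf {j : ℕ | ω ∈ A j} = j :=
      Iff.rfl
    rw [h1]
    constructor
    · intro h2
      rcases Set.eq_empty_or_nonempty {j : ℕ | ω ∈ A j} with h3 | h3
      · right
        rw [h3, Nat.sInf_empty] at h2
        refine ⟨Set.mem_iInter.2 fun i hi => ?_, h2.symm⟩
        have : i ∈ {j : ℕ | ω ∈ A j} := hi
        rw [h3] at this
        exact this
      · left
        have h4 : ω ∈ A (sInf {j : ℕ | ω ∈ A j}) := Nat.sInf_mem h3
        rw [h2] at h4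
        refine ⟨h4, Set.mem_iInter.2 fun i hi => ?_⟩
        have h5 : (i : ℕ) ∉ {j : ℕ | ω ∈ A j} := by
          apply Nat.notMem_of_lt_sInf
          rw [h2]
          exact i.2
        exact h5 hi
    · rintro (⟨h2, h3⟩ | ⟨h2, h3⟩)
      · have h4 : sInf {j : ℕ | ω ∈ A j} ≤ j := Nat.sInf_le h2
        rcases lt_or_eq_of_le h4 with h5 | h5
        · exfalso
          have h6 := Set.mem_iInter.1 h3 ⟨_, h5⟩
          exact h6 (Nat.sInf_mem (s := {j : ℕ | ω ∈ A j}) ⟨j, h2⟩)
        · exact h5
      · have h4 : j = 0 := h3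
        rw [h4]
        have h5 : {j : ℕ | ω ∈ A j} = ∅ := by
          ext i
          constructor
          · intro hi
            exact Set.mem_iInter.1 h2 i hi
          · intro hi
            exact absurd hi (Set.notMem_empty i)
        rw [h5, Nat.sInf_empty]
  rw [h]
  refine MeasurableSet.union ((hA j).inter (MeasurableSet.iInter fun i => (hA i).compl)) ?_
  exact (MeasurableSet.iInter fun i => (hA i).compl).inter (MeasurableSet.const _)

theorem measurable_ffBin {Ω : Type} [MeasurableSpace Ω] {d : ℕ} (X : ℕ → Ω → Fin d → ℝ)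
    (hX : ∀ i, Measurable (X i)) (i : ℕ) : Measurable (fun ω => ffBin (fun i => X i ω) i) := by
  induction i using Nat.strong_induction_on with
  | _ i ih =>
    have h : (fun ω => ffBin (fun i => X i ω) i) = fun ω => sInf {j : ℕ | ω ∈
        {ω | ∀ c, (∑ k : Fin i, if ffBin (fun i => X i ω) k.1 = j then X k.1 ω c else 0)
          + X i ω c ≤ 1}} := by
      funext ω
      rw [ffBin]
      rfl
    rw [h]
    apply measurable_sInf
    intro j
    have h2 : {ω | ∀ c, (∑ k : Fin i, if ffBin (fun i => X i ω) k.1 = j then X k.1 ω c else 0)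
          + X i ω c ≤ 1} = ⋂ c, {ω | (∑ k : Fin i, if ffBin (fun i => X i ω) k.1 = j then
            X k.1 ω c else 0) + X i ω c ≤ 1} := by
      ext ω
      constructor
      · intro h3
        exact Set.mem_iInter.2 h3
      · intro h3 c
        have h4 := Set.mem_iInter.1 h3 c
        exact h4
    rw [h2]
    refine MeasurableSet.iInter fun c => ?_
    refine measurableSet_le ?_ measurable_const
    refine Measurable.add ?_ ((measurable_pi_apply c).comp (hX i))
    refine Finset.measurable_sum _ fun k _ => ?_
    refine Measurable.ite ?_ ((measurable_pi_apply c).comp (hX k)) measurable_const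
    exact (ih k.1 k.2) (measurableSet_singleton j)

theorem main : S_P4 ∧ S_P5 := by
  constructor
  · intro Ω _ d X hX n
    have h1 : Measurable (fun ω => fun i : Fin n => ffBin (fun i => X i ω) i) :=
      measurable_pi_lambda _ fun i => measurable_ffBin X hX i
    have h2 : (fun ω => ffCount (fun i => X i ω) n) =
        (fun v : Fin n → ℕ => (Finset.univ.image v).card) ∘
          (fun ω => fun i : Fin n => ffBin (fun i => X i ω) i) := by
      funext ω
      unfold ffCount
      simp only [Function.comp]
      congr 1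
      ext j
      simp only [Finset.mem_image, Finset.mem_range, Finset.mem_univ, true_and]
      constructor
      · rintro ⟨a, ha, rfl⟩
        exact ⟨⟨a, ha⟩, rfl⟩
      · rintro ⟨a, rfl⟩
        exact ⟨a.1, a.2, rfl⟩
    rw [h2]
    exact (measurable_of_countable _).comp h1
  · intro Ω _ d X hX n
    have h : (fun ω => opt (fun i => X i ω) n) = fun ω => sInf {k : ℕ | ω ∈
        {ω | ∃ f : Fin n → Fin k, ∀ (b : Fin k) (c : Fin d),
          (∑ i : Fin n, if f i = b then X i.1 ω c else 0) ≤ 1}} := by
      funext ω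
      rfl
    rw [h]
    apply measurable_sInf
    intro k
    have h2 : {ω | ∃ f : Fin n → Fin k, ∀ (b : Fin k) (c : Fin d),
          (∑ i : Fin n, if f i = b then X i.1 ω c else 0) ≤ 1} =
        ⋃ f : Fin n → Fin k, ⋂ b : Fin k, ⋂ c : Fin d,
          {ω | (∑ i : Fin n, if f i = b then X i.1 ω c else 0) ≤ 1} := by
      ext ω
      constructor
      · rintro ⟨f, hf⟩
        exact Set.mem_iUnion.2 ⟨f, Set.mem_iInter.2 fun b => Set.mem_iInter.2 fun c => hf b c⟩
      · intro h3
        obtain ⟨f, hf⟩ := Set.mem_iUnion.1 h3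
        exact ⟨f, fun b c => Set.mem_iInter.1 (Set.mem_iInter.1 hf b) c⟩
    rw [h2]
    refine MeasurableSet.iUnion fun f => MeasurableSet.iInter fun b => MeasurableSet.iInter
      fun c => ?_
    refine measurableSet_le ?_ measurable_const
    refine Finset.measurable_sum _ fun i _ => ?_
    by_cases hb : f i = b
    · simp only [hb, if_true]
      exact (measurable_pi_apply c).comp (hX i)
    · simp only [hb, if_false]
      exact measurable_const

end Pool.Agent.R944.FF.P4
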